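import Mathlib
import Pool.Agent.Helper35.HSF.StH

/-!
Project HSF (MP_925021_gt), module KCV: the parallel hypersurface at distance `π/4`.
-/

set_option autoImplicit false

namespace Helper26.HSF

open Helper35.HSF Helper35.MS Helper35.PI Helper35.PI2 Helper32.CL
open scoped ContDiff Manifold Topology ENNReal BigOperators
open MeasureTheory Set Filter

theorem kcv_diff {n : ℕ} {M : Type} [TopologicalSpace M] [ChartedSpace (EE n) M]
    [IsManifold (𝓡 n) ∞ M] {N : ℕ} {f : M → EE N}
    (hf : ContMDiff (𝓡 n) 𝓘(ℝ, EE N) ∞ f) (p : M) {y : EE n}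
    (hy : y ∈ (chartAt (EE n) p).target) :
    DifferentiableAt ℝ (fun y => f ((chartAt (EE n) p).symm y)) y := by
  have h1 : ContMDiffOn (𝓡 n) (𝓡 n) ∞ (chartAt (EE n) p).symm (chartAt (EE n) p).target :=
    contMDiffOn_chart_symm
  have h2 : ContMDiffOn (𝓡 n) 𝓘(ℝ, EE N) ∞ (fun y => f ((chartAt (EE n) p).symm y))
      (chartAt (EE n) p).target := hf.comp_contMDiffOn h1
  have h3 : ContDiffOn ℝ ∞ (fun y => f ((chartAt (EE n) p).symm y))
      (chartAt (EE n) p).target := contMDiffOn_iff_contDiffOn.1 h2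
  exact (h3.contDiffAt ((chartAt (EE n) p).open_target.mem_nhds hy)).differentiableAt (by simp)

theorem hKCV (hWEI : StWEI) : StKCV := by
  intro n M _ _ _ _ ρ t F ν h hb
  have hρ := h.ρ0
  obtain ⟨s, hs⟩ : ∃ s : ℝ, s = 1 / Real.sqrt 2 := ⟨_, rfl⟩
  have hq0 : 0 < Real.sqrt 2 := Real.sqrt_pos.2 (by norm_num)
  have hs0 : 0 < s := by rw [hs]; positivity
  have h1 : s ^ 2 + s ^ 2 = 1 := by
    have h2 : Real.sqrt 2 ^ 2 = 2 := Real.sq_sqrt (by norm_num)
    rw [hs, div_pow, h2]
    norm_num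
  obtain ⟨hW1, hW2⟩ := hWEI n M ρ t F ν h
  have hFF : ∀ q, (inner ℝ (F q t) (F q t) : ℝ) = ρ ^ 2 := fun q => by
    rw [real_inner_self_eq_norm_sq, h.nF]
  have hνν : ∀ q, (inner ℝ (ν q t) (ν q t) : ℝ) = 1 := fun q => by
    rw [real_inner_self_eq_norm_sq, h.nν, one_pow]
  have hνF : ∀ q, (inner ℝ (ν q t) (F q t) : ℝ) = 0 := fun q => by
    rw [real_inner_comm]; exact h.Fν q
  have hdF : ∀ (p : M), ∀ y ∈ (chartAt (EE n) p).target,
      DifferentiableAt ℝ (fun y => F ((chartAt (EE n) p).symm y) t) y :=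
    fun p y hy => kcv_diff h.sF p hy
  have hdν : ∀ (p : M), ∀ y ∈ (chartAt (EE n) p).target,
      DifferentiableAt ℝ (fun y => ν ((chartAt (EE n) p).symm y) t) y :=
    fun p y hy => kcv_diff h.sν p hy
  have hD : ∀ (a b : ℝ) (p : M), ∀ y ∈ (chartAt (EE n) p).target, ∀ v : EE n,
      fderiv ℝ (fun y => a • F ((chartAt (EE n) p).symm y) t
        + b • ν ((chartAt (EE n) p).symm y) t) y v
        = a • fderiv ℝ (fun y => F ((chartAt (EE n) p).symm y) t) y v
          + b • fderiv ℝ (fun y => ν ((chartAt (EE n) p).symm y) t) y v := by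
    intro a b p y hy v
    have h2 := ((hdF p y hy).hasFDerivAt.const_smul a).add ((hdν p y hy).hasFDerivAt.const_smul b)
    have h3 : fderiv ℝ (fun y => a • F ((chartAt (EE n) p).symm y) t
        + b • ν ((chartAt (EE n) p).symm y) t) y = _ := h2.fderiv
    rw [h3]
    rfl
  have hsm : ∀ a b : ℝ, ContMDiff (𝓡 n) 𝓘(ℝ, EE (n + 2)) ∞ (fun q => a • F q t + b • ν q t) := by
    intro a b
    have ca : ContMDiff (𝓡 n) 𝓘(ℝ, ℝ) ∞ (fun _ : M => a) := contMDiff_const
    have cb : ContMDiff (𝓡 n) 𝓘(ℝ, ℝ) ∞ (fun _ : M => b) := contMDiff_const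
    have e1 : ContMDiff (𝓡 n) 𝓘(ℝ, EE (n + 2)) ∞ (fun q => a • F q t) := ca.smul h.sF
    have e2 : ContMDiff (𝓡 n) 𝓘(ℝ, EE (n + 2)) ∞ (fun q => b • ν q t) := cb.smul h.sν
    exact e1.add e2
  have eg : (fun q => (1 / Real.sqrt 2) • ((1 / ρ) • F q t + ν q t))
      = fun q => (s / ρ) • F q t + s • ν q t := by
    funext q
    rw [← hs, smul_add, smul_smul]
    congr 2
    ring
  have eη : (fun q => (1 / Real.sqrt 2) • (ν q t - (1 / ρ) • F q t))
      = fun q => (-(s / ρ)) • F q t + s • ν q t := by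
    funext q
    have e0 : s / ρ = s * (1 / ρ) := by ring
    rw [← hs, e0]
    module
  rw [eg, eη]
  refine ⟨hsm (s / ρ) s, hsm (-(s / ρ)) s, ?_, ?_, ?_, ?_, ?_⟩
  · intro q
    have h2 : ‖(s / ρ) • F q t + s • ν q t‖ ^ 2 = 1 := by
      rw [← real_inner_self_eq_norm_sq]
      simp only [inner_add_left, inner_add_right, real_inner_smul_left, real_inner_smul_right,
        hFF, hνν, hνF, h.Fν]
      field_simp
      linear_combination ρ * h1
    have h3 := norm_nonneg ((s / ρ) • F q t + s • ν q t)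
    nlinarith
  · intro q
    have h2 : ‖-(s / ρ) • F q t + s • ν q t‖ ^ 2 = 1 := by
      rw [← real_inner_self_eq_norm_sq]
      simp only [inner_add_left, inner_add_right, real_inner_smul_left, real_inner_smul_right,
        hFF, hνν, hνF, h.Fν]
      field_simp
      linear_combination ρ * h1
    have h3 := norm_nonneg (-(s / ρ) • F q t + s • ν q t)
    nlinarith
  · intro q
    simp only [inner_add_left, inner_add_right, real_inner_smul_left, real_inner_smul_right,
      hFF, hνν, hνF, h.Fν]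
    field_simp
    ring
  · intro p y hy v
    obtain ⟨e1, e2, e3, e4⟩ := hW1 p y hy v
    change (inner ℝ (fderiv ℝ (fun y => (s / ρ) • F ((chartAt (EE n) p).symm y) t
        + s • ν ((chartAt (EE n) p).symm y) t) y v) _ : ℝ) = 0
    rw [hD]
    · simp only [inner_add_left, inner_add_right, real_inner_smul_left, real_inner_smul_right,
        e1, e2, e3, e4]
      ring
    · exact hy
  · intro p y hy v hv
    have hκ : ∀ q, ∀ c : Fin n → ℝ, gn F q t c = 1 →
        -(1 / ρ) < hn F ν q t c ∧ hn F ν q t c < 1 / ρ := by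
      intro q c hq
      obtain ⟨h3, h4⟩ := abs_lt.1 (hb q c hq)
      constructor
      · have : -(1 / ρ) = -1 / ρ := by ring
        rw [this, div_lt_iff₀ hρ]
        linarith
      · rw [lt_div_iff₀ hρ]
        linarith
    have h5 := hW2 (-(1 / ρ)) (1 / ρ) hκ (s / ρ) (-s) (s / ρ) s ?_ p y hy v hv
    · have e1 : (fun y => (s / ρ) • F ((chartAt (EE n) p).symm y) t
          - (-s) • ν ((chartAt (EE n) p).symm y) t)
          = fun y => (s / ρ) • F ((chartAt (EE n) p).symm y) t
          + s • ν ((chartAt (EE n) p).symm y) t := by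
        funext z
        rw [neg_smul, sub_neg_eq_add]
      have e2 : (fun y => (s / ρ) • F ((chartAt (EE n) p).symm y) t
          - s • ν ((chartAt (EE n) p).symm y) t)
          = fun y => (s / ρ) • F ((chartAt (EE n) p).symm y) t
          + (-s) • ν ((chartAt (EE n) p).symm y) t := by
        funext z
        rw [neg_smul, sub_eq_add_neg]
      rw [e1, e2, hD _ _ p y hy, hD _ _ p y hy] at h5
      change (inner ℝ (fderiv ℝ (fun y => (s / ρ) • F ((chartAt (EE n) p).symm y) t
        + s • ν ((chartAt (EE n) p).symm y) t) y v)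
        (fderiv ℝ (fun y => (-(s / ρ)) • F ((chartAt (EE n) p).symm y) t
        + s • ν ((chartAt (EE n) p).symm y) t) y v) : ℝ) < 0
      rw [hD _ _ p y hy, hD _ _ p y hy]
      have e3 : (-(s / ρ)) • fderiv ℝ (fun y => F ((chartAt (EE n) p).symm y) t) y v
          + s • fderiv ℝ (fun y => ν ((chartAt (EE n) p).symm y) t) y v
          = -((s / ρ) • fderiv ℝ (fun y => F ((chartAt (EE n) p).symm y) t) y v
          + (-s) • fderiv ℝ (fun y => ν ((chartAt (EE n) p).symm y) t) y v) := by
        module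
      rw [e3, inner_neg_right]
      linarith
    · intro κ hκ1 hκ2
      have h6 : 0 < s / ρ + -s * κ := by
        have h7 : s * κ < s * (1 / ρ) := mul_lt_mul_of_pos_left hκ2 hs0
        have h8 : s / ρ = s * (1 / ρ) := by ring
        rw [h8]
        linarith
      have h8 : 0 < s / ρ + s * κ := by
        have h9 : s * (-(1 / ρ)) < s * κ := mul_lt_mul_of_pos_left hκ1 hs0
        have h10 : s / ρ = s * (1 / ρ) := by ring
        rw [h10]
        linarith
      exact mul_pos h6 h8

end Helper26.HSF
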