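import Mathlib
import Pool.Agent.Helper35.HSF.StG

/-!
Project HSF (MP_925021_gt), module SRJ: Hausdorff convergence to a round sphere.
-/

set_option autoImplicit false

namespace Helper26.HSF

open Helper35.HSF Helper35.MS Helper35.PI Helper35.PI2 Helper32.CL
open scoped ContDiff Manifold Topology ENNReal BigOperators
open MeasureTheory Set Filter

theorem gdM_zero_of_max {n N : ℕ} {M : Type} [TopologicalSpace M] [ChartedSpace (EE n) M]
    (F : M → ℝ → EE N) (t : ℝ) (h : M → ℝ) (q : M) (hq : ∀ y, h y ≤ h q) :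
    gdM n F t h q = 0 := by
  have h1 : IsLocalMax (fun y => h ((chartAt (EE n) q).symm y)) (chartAt (EE n) q q) := by
    refine Filter.Eventually.of_forall (fun y => ?_)
    simp only [(chartAt (EE n) q).left_inv (mem_chart_source (EE n) q)]
    exact hq _
  unfold gdM
  rw [h1.fderiv_eq_zero]
  simp

theorem exists_ne_of_chart {n : ℕ} (hn : 1 ≤ n) {M : Type} [TopologicalSpace M]
    [ChartedSpace (EE n) M] (q : M) : ∃ y : M, y ≠ q := by
  haveI : Nonempty (Fin n) := ⟨⟨0, hn⟩⟩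
  haveI : Nontrivial (EE n) := inferInstance
  have hopen := (chartAt (EE n) q).open_target
  have hmem : chartAt (EE n) q q ∈ (chartAt (EE n) q).target := mem_chart_target (EE n) q
  have hne : (𝓝[≠] (chartAt (EE n) q q)).NeBot := inferInstance
  have h1 : ∀ᶠ y in 𝓝[≠] (chartAt (EE n) q q), y ∈ (chartAt (EE n) q).target :=
    eventually_nhdsWithin_of_eventually_nhds (hopen.mem_nhds hmem)
  obtain ⟨y, hy1, hy2⟩ := (h1.and self_mem_nhdsWithin).exists
  refine ⟨(chartAt (EE n) q).symm y, fun h => hy2 ?_⟩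
  have := (chartAt (EE n) q).right_inv hy1
  rw [h] at this
  exact this.symm

theorem hSRJ (hRPT : StRPT) (hBAL : StBAL) (hEVF : StEVF) (hI4J : StI4J) : StSRJ := by
  intro n hn M _ _ _ _ _ _ T F ν ts ε x C α hX η hη
  have hn1 : 1 ≤ n := by omega
  have hnR : (0 : ℝ) < n := by exact_mod_cast (show 0 < n by omega)
  have hD := hX.d
  have hfl := hD.fl
  have hts0 : 0 < ts := hD.ts0.1
  have htsT : ts < T := hD.ts0.2
  set R : ℝ := rr n T with hR
  have hR0 : 0 < R := by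
    rw [hR, rr]
    linarith [hD.T1]
  have hRx : ‖x‖ ^ 2 = R := hX.x2
  set sR : ℝ := Real.sqrt R with hsR
  have hsR0 : 0 < sR := Real.sqrt_pos.mpr hR0
  have hsR2 : sR ^ 2 = R := Real.sq_sqrt hR0.le
  have hxn : ‖x‖ = sR := by
    rw [hsR, ← hRx, Real.sqrt_sq (norm_nonneg _)]
  set η₁ : ℝ := min (η / 3) (1 / 4) with hη₁
  have hη₁0 : 0 < η₁ := lt_min (by linarith) (by norm_num)
  have hη₁a : 3 * η₁ ≤ η := by
    have := min_le_left (η / 3) (1 / 4 : ℝ)
    linarith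
  have hη₁b : η₁ ≤ 1 / 4 := min_le_right _ _
  obtain ⟨ta, hta, hRPT'⟩ := hRPT n hn M T F ν ts ε x C α hX η₁ hη₁0
  obtain ⟨tb, htb, hBAL'⟩ := hBAL n hn M T F ν ts ε x C α hX (1 / 2) (by norm_num) le_rfl
  set K₃ : ℝ := (2 * n + C ^ 2) / (4 * n) with hK₃
  have hK₃0 : 0 < K₃ := by
    rw [hK₃]
    have : 0 ≤ C ^ 2 := sq_nonneg C
    positivity
  set δ : ℝ := min (sR / 4) (min (η₁ * sR / 3) (η₁ * sR / K₃)) with hδ
  have hδ0 : 0 < δ := by
    rw [hδ]
    refine lt_min (by positivity) (lt_min (by positivity) (by positivity))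
  have hδ1 : δ ≤ sR / 4 := min_le_left _ _
  have hδ2 : δ ≤ η₁ * sR / 3 := (min_le_right _ _).trans (min_le_left _ _)
  have hδ3 : δ ≤ η₁ * sR / K₃ := (min_le_right _ _).trans (min_le_right _ _)
  refine ⟨max (max ta tb) (T - δ ^ 2 / (2 * n)), ⟨?_, ?_⟩, ?_⟩
  · exact hta.1.trans ((le_max_left _ _).trans (le_max_left _ _))
  · refine max_lt (max_lt hta.2 htb.2) ?_
    have : 0 < δ ^ 2 / (2 * n) := by positivity
    linarith
  intro t ht
  have hta' : t ∈ Ico ta T := ⟨((le_max_left _ _).trans (le_max_left _ _)).trans ht.1, ht.2⟩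
  have htb' : t ∈ Ico tb T := ⟨((le_max_right _ _).trans (le_max_left _ _)).trans ht.1, ht.2⟩
  have htI : t ∈ Ico ts T := ⟨hta.1.trans hta'.1, ht.2⟩
  have htJ : t ∈ Ioo 0 T := ⟨by linarith [htI.1], ht.2⟩
  have hTt : 0 < T - t := by linarith [ht.2]
  set σ : ℝ := Real.sqrt (2 * n * (T - t)) with hσ
  have hσ0 : 0 < σ := Real.sqrt_pos.mpr (by positivity)
  have hσ2 : σ ^ 2 = 2 * n * (T - t) := Real.sq_sqrt (by positivity)
  have hσδ : σ ≤ δ := by
    rw [hσ]
    apply Real.sqrt_le_iff.mpr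
    refine ⟨hδ0.le, ?_⟩
    have h1 : T - δ ^ 2 / (2 * n) ≤ t := (le_max_right _ _).trans ht.1
    have h2 : T - t ≤ δ ^ 2 / (2 * n) := by linarith
    calc 2 * n * (T - t) ≤ 2 * n * (δ ^ 2 / (2 * n)) := by
          apply mul_le_mul_of_nonneg_left h2 (by positivity)
      _ = δ ^ 2 := by field_simp
  have hrt : R ≤ rr n t := by
    rw [hR, rr, rr]
    have : (n : ℝ) * t ≤ n * T := mul_le_mul_of_nonneg_left ht.2.le hnR.le
    linarith
  have hrt0 : 0 < rr n t := lt_of_lt_of_le hR0 hrt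
  have hrd : rr n t - R = σ ^ 2 := by
    rw [hσ2, hR, rr, rr]; ring
  -- the inner product with `x`
  have hix : ∀ z, |(inner ℝ (F z t - x) x : ℝ)| ≤ K₃ * σ ^ 2 := by
    intro z
    have h1 : ‖F z t‖ ^ 2 = ‖F z t - x‖ ^ 2 + 2 * inner ℝ (F z t - x) x + ‖x‖ ^ 2 := by
      have h := norm_add_sq_real (F z t - x) x
      rw [sub_add_cancel] at h
      exact h
    have h2 : ‖F z t‖ ^ 2 = rr n t := hfl.sph z t htJ
    have h3 : ‖F z t - x‖ ^ 2 ≤ C ^ 2 * (T - t) := by
      have h4 := hX.li t htI z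
      have h5 : ‖F z t - x‖ ^ 2 ≤ (C * Real.sqrt (T - t)) ^ 2 :=
        pow_le_pow_left₀ (norm_nonneg _) h4 2
      rw [mul_pow, Real.sq_sqrt hTt.le] at h5
      exact h5
    have h6 : 0 ≤ ‖F z t - x‖ ^ 2 := sq_nonneg _
    have h7 : T - t = σ ^ 2 / (2 * n) := by
      rw [hσ2]; field_simp
    have h8 : 2 * (inner ℝ (F z t - x) x : ℝ) = σ ^ 2 - ‖F z t - x‖ ^ 2 := by
      rw [hRx, h2] at h1
      linarith
    have h9 : K₃ * σ ^ 2 = (σ ^ 2 + C ^ 2 * (σ ^ 2 / (2 * n))) / 2 := by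
      rw [hK₃]; field_simp; ring
    have h10 : 0 ≤ σ ^ 2 := sq_nonneg _
    have h11 : 0 ≤ C ^ 2 * (σ ^ 2 / (2 * n)) := by positivity
    rw [h7] at h3
    rw [h9, abs_le]
    constructor <;> linarith
  have hnorm : ∀ z, |‖F z t - x‖ - σ| ≤ η₁ * σ := fun z => (hRPT' t hta' z).2
  constructor
  · intro z
    set v : EE (n + 2) := F z t - x with hv
    set a : ℝ := (inner ℝ v x : ℝ) / R with ha
    set v' : EE (n + 2) := v - a • x with hv'
    have hort : (inner ℝ v' x : ℝ) = 0 := by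
      rw [hv', inner_sub_left, inner_smul_left, real_inner_self_eq_norm_sq, hRx, ha]
      simp only [conj_trivial]
      field_simp
      ring
    have hdist : ‖v - v'‖ ≤ η₁ * σ := by
      have h1 : v - v' = a • x := by rw [hv']; abel
      rw [h1, norm_smul, hxn, ha, Real.norm_eq_abs, abs_div, abs_of_pos hR0]
      have h2 := hix z
      have h3 : K₃ * σ ≤ η₁ * sR := by
        have h4 : σ ≤ η₁ * sR / K₃ := hσδ.trans hδ3
        rw [le_div_iff₀ hK₃0] at h4
        linarith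
      calc |(inner ℝ v x : ℝ)| / R * sR ≤ (K₃ * σ ^ 2) / R * sR := by
            apply mul_le_mul_of_nonneg_right _ hsR0.le
            apply div_le_div_of_nonneg_right h2 hR0.le
        _ = (K₃ * σ) * σ / sR := by
            rw [← hsR2]; field_simp
        _ ≤ (η₁ * sR) * σ / sR := by
            apply div_le_div_of_nonneg_right _ hsR0.le
            exact mul_le_mul_of_nonneg_right h3 hσ0.le
        _ = η₁ * σ := by field_simp
    have hvn := abs_le.mp (hnorm z)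
    have hvv : |‖v‖ - ‖v'‖| ≤ η₁ * σ := (abs_norm_sub_norm_le v v').trans hdist
    have hvv' := abs_le.mp hvv
    have hησ : η₁ * σ ≤ 1 / 4 * σ := mul_le_mul_of_nonneg_right hη₁b hσ0.le
    have hv'0 : 0 < ‖v'‖ := by linarith [hvn.1, hvn.2, hvv'.1, hvv'.2]
    refine ⟨‖v'‖⁻¹ • v', ?_, ?_, ?_⟩
    · rw [inner_smul_left, hort, mul_zero]
    · rw [norm_smul, norm_inv, norm_norm, inv_mul_cancel₀ hv'0.ne']
    · have h1 : v - σ • (‖v'‖⁻¹ • v') = (v - v') + (1 - σ * ‖v'‖⁻¹) • v' := by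
        rw [sub_smul, one_smul, mul_smul]; abel
      have h2 : ‖(1 - σ * ‖v'‖⁻¹) • v'‖ = |‖v'‖ - σ| := by
        rw [norm_smul, Real.norm_eq_abs]
        have h3 : |1 - σ * ‖v'‖⁻¹| * ‖v'‖ = |(1 - σ * ‖v'‖⁻¹) * ‖v'‖| := by
          rw [abs_mul, abs_of_pos hv'0]
        rw [h3]
        congr 1
        field_simp
      have h4 : |‖v'‖ - σ| ≤ 2 * (η₁ * σ) := by
        rw [abs_le]
        constructor <;> linarith [hvn.1, hvn.2, hvv'.1, hvv'.2]
      calc ‖v - σ • (‖v'‖⁻¹ • v')‖ ≤ ‖v - v'‖ + ‖(1 - σ * ‖v'‖⁻¹) • v'‖ := by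
            rw [h1]; exact norm_add_le _ _
        _ ≤ η₁ * σ + 2 * (η₁ * σ) := by rw [h2]; exact add_le_add hdist h4
        _ = 3 * η₁ * σ := by ring
        _ ≤ η * σ := mul_le_mul_of_nonneg_right hη₁a hσ0.le
  · intro p hpx hp1
    have hcF : Continuous (fun q => F q t) := by
      have h1 : ContinuousOn (fun z : M × ℝ => F z.1 z.2) (univ ×ˢ Ioo 0 T) :=
        (hI4J n (n + 2) M (Ioo 0 T) F hfl.mcf.toIsImmJ).1
      have h2 : Continuous (fun q : M => ((q, t) : M × ℝ)) := by fun_prop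
      exact h1.comp_continuous h2 (fun q => ⟨mem_univ _, htJ⟩)
    have hci : Continuous (fun q => (inner ℝ (F q t) p : ℝ)) := hcF.inner continuous_const
    obtain ⟨q, -, hq⟩ := isCompact_univ.exists_isMaxOn (univ_nonempty (α := M)) hci.continuousOn
    have hq' : ∀ y, (inner ℝ (F y t) p : ℝ) ≤ inner ℝ (F q t) p := fun y => hq (mem_univ y)
    have hgd := gdM_zero_of_max (n := n) F t (fun q => (inner ℝ (F q t) p : ℝ)) q hq'
    obtain ⟨-, -, hE⟩ := hEVF n hn1 M (Ioo 0 T) F ν hfl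
    have hdec := ((hE q t htJ).2.2.2.2.2.2 p).2.2.2
    rw [hgd, zero_add] at hdec
    set b : ℝ := (inner ℝ (ν q t) p : ℝ) with hb
    set a : ℝ := (inner ℝ (F q t) p : ℝ) with ha
    have hba : b ^ 2 + a ^ 2 / rr n t = 1 := by
      have h1 : (inner ℝ p p : ℝ) = b * b + a / rr n t * a := by
        conv_lhs => rw [hdec]
        rw [inner_add_left, inner_smul_left, inner_smul_left]
        simp only [conj_trivial]
        rw [← hdec, ← hb, ← ha]
      rw [real_inner_self_eq_norm_sq, hp1] at h1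
      rw [one_pow] at h1
      rw [h1]; ring
    have ha2 : |a| ≤ 2 * σ := by
      have h1 : a = inner ℝ (F q t - x) p := by
        rw [inner_sub_left, real_inner_comm p x, hpx, sub_zero]
      rw [h1]
      refine (abs_real_inner_le_norm _ _).trans ?_
      rw [hp1, mul_one]
      have h2 := (abs_le.mp (hnorm q)).2
      have h3 : η₁ * σ ≤ 1 / 4 * σ := mul_le_mul_of_nonneg_right hη₁b hσ0.le
      linarith
    have ha2' : a ^ 2 ≤ 4 * σ ^ 2 := by
      have h1 : |a| ^ 2 ≤ (2 * σ) ^ 2 := pow_le_pow_left₀ (abs_nonneg _) ha2 2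
      rw [sq_abs] at h1
      linarith
    have har : a ^ 2 / rr n t ≤ 4 * σ ^ 2 / R := by
      refine (div_le_div_of_nonneg_right ha2' hrt0.le).trans ?_
      exact div_le_div_of_nonneg_left (by positivity) hR0 hrt
    have hσR : 16 * σ ^ 2 ≤ R := by
      have h1 : σ ≤ sR / 4 := hσδ.trans hδ1
      have h2 : σ ^ 2 ≤ (sR / 4) ^ 2 := pow_le_pow_left₀ hσ0.le h1 2
      rw [div_pow, hsR2] at h2
      linarith
    have h4R : 4 * σ ^ 2 / R ≤ 1 / 4 := by
      rw [div_le_iff₀ hR0]; linarith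
    have hb2 : 3 / 4 ≤ b ^ 2 := by linarith
    have hbneg : b < 0 := by
      by_contra hcon
      push Not at hcon
      obtain ⟨y, hy⟩ := exists_ne_of_chart hn1 q
      have hFy : F y t ≠ F q t := fun h => hy (hD.inj t htI h)
      set Δ : EE (n + 2) := F y t - F q t with hΔ
      have hΔ0 : 0 < ‖Δ‖ ^ 2 := by
        have : 0 < ‖Δ‖ := norm_pos_iff.mpr (sub_ne_zero.mpr hFy)
        positivity
      have hbal := (hBAL' t htb' y q).1
      rw [← hσ, ← hΔ] at hbal
      have hΔp : (inner ℝ Δ p : ℝ) ≤ 0 := by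
        rw [hΔ, inner_sub_left]
        linarith [hq' y]
      have hΔF : (inner ℝ Δ (F q t) : ℝ) = -‖Δ‖ ^ 2 / 2 := by
        have h1 : ‖F y t‖ ^ 2 = ‖Δ‖ ^ 2 + 2 * inner ℝ Δ (F q t) + ‖F q t‖ ^ 2 := by
          have h := norm_add_sq_real Δ (F q t)
          rw [hΔ, sub_add_cancel] at h
          exact h
        rw [hfl.sph y t htJ, hfl.sph q t htJ] at h1
        linarith
      have hΔp2 : (inner ℝ Δ p : ℝ) = b * inner ℝ Δ (ν q t) + a / rr n t * (-‖Δ‖ ^ 2 / 2) := by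
        conv_lhs => rw [hdec]
        rw [inner_add_right, inner_smul_right, inner_smul_right, hΔF]
      have h5 : ‖Δ‖ ^ 2 / (4 * σ) ≤ inner ℝ Δ (ν q t) := by
        rw [div_le_iff₀ (by positivity)]
        linarith
      have h6 : b * (‖Δ‖ ^ 2 / (4 * σ)) ≤ b * inner ℝ Δ (ν q t) :=
        mul_le_mul_of_nonneg_left h5 hcon
      have h7 : b * (‖Δ‖ ^ 2 / (4 * σ)) ≤ a / rr n t * (‖Δ‖ ^ 2 / 2) := by
        have h8 : a / rr n t * (-‖Δ‖ ^ 2 / 2) = -(a / rr n t * (‖Δ‖ ^ 2 / 2)) := by ring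
        rw [h8] at hΔp2
        linarith
      have h9 : b / (2 * σ) ≤ a / rr n t := by
        have h10 : b / (2 * σ) * (‖Δ‖ ^ 2 / 2) ≤ a / rr n t * (‖Δ‖ ^ 2 / 2) := by
          have h11 : b / (2 * σ) * (‖Δ‖ ^ 2 / 2) = b * (‖Δ‖ ^ 2 / (4 * σ)) := by
            field_simp; ring
          rw [h11]; exact h7
        exact le_of_mul_le_mul_right h10 (by positivity)
      have h12 : a / rr n t ≤ 2 * σ / R := by
        have h13 : a ≤ 2 * σ := (le_abs_self a).trans ha2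
        refine (div_le_div_of_nonneg_right h13 hrt0.le).trans ?_
        exact div_le_div_of_nonneg_left (by positivity) hR0 hrt
      have h14 : b ≤ 4 * σ ^ 2 / R := by
        have h15 : b / (2 * σ) ≤ 2 * σ / R := h9.trans h12
        rw [div_le_iff₀ (by positivity)] at h15
        calc b ≤ 2 * σ / R * (2 * σ) := h15
          _ = 4 * σ ^ 2 / R := by ring
      have h16 : b ≤ 1 / 4 := h14.trans h4R
      nlinarith
    have hb1 : -b ≥ b ^ 2 := by
      have h1 : b ^ 2 ≤ 1 := by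
        have : 0 ≤ a ^ 2 / rr n t := div_nonneg (sq_nonneg _) hrt0.le
        linarith
      have h2 : -1 ≤ b := by nlinarith
      nlinarith
    have hνp : ‖ν q t + p‖ ^ 2 ≤ (η₁) ^ 2 := by
      have h1 : ‖ν q t + p‖ ^ 2 = ‖ν q t‖ ^ 2 + 2 * inner ℝ (ν q t) p + ‖p‖ ^ 2 :=
        norm_add_sq_real _ _
      rw [hfl.nν q t htJ, hp1, ← hb] at h1
      have h2 : 8 * σ ^ 2 ≤ η₁ ^ 2 * R := by
        have h3 : σ ≤ η₁ * sR / 3 := hσδ.trans hδ2
        have h4 : σ ^ 2 ≤ (η₁ * sR / 3) ^ 2 := pow_le_pow_left₀ hσ0.le h3 2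
        rw [div_pow, mul_pow, hsR2] at h4
        have h5 : 0 ≤ η₁ ^ 2 * R := by positivity
        linarith
      have h6 : 2 * (4 * σ ^ 2 / R) ≤ η₁ ^ 2 := by
        have h7 : 2 * (4 * σ ^ 2 / R) = 8 * σ ^ 2 / R := by ring
        rw [h7, div_le_iff₀ hR0]
        exact h2
      linarith
    have hνp' : ‖ν q t + p‖ ≤ η₁ := by
      exact abs_le_of_sq_le_sq' hνp hη₁0.le |>.2
    refine ⟨q, ?_⟩
    have h1 : F q t - x - σ • p = (F q t + σ • ν q t - x) - σ • (ν q t + p) := by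
      rw [smul_add]; abel
    have h2 := (hRPT' t hta' q).1
    rw [← hσ] at h2
    calc ‖F q t - x - σ • p‖ ≤ ‖F q t + σ • ν q t - x‖ + ‖σ • (ν q t + p)‖ := by
          rw [h1]; exact norm_sub_le _ _
      _ ≤ η₁ * σ + σ * η₁ := by
          rw [norm_smul, Real.norm_eq_abs, abs_of_pos hσ0]
          exact add_le_add h2 (mul_le_mul_of_nonneg_left hνp' hσ0.le)
      _ ≤ 3 * η₁ * σ := by nlinarith [mul_pos hη₁0 hσ0]
      _ ≤ η * σ := mul_le_mul_of_nonneg_right hη₁a hσ0.le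

end Helper26.HSF
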