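import Mathlib
import Pool.Agent.Helper35.HSF.StE

/-!
Project HSF (MP_925021_gt), module THD: decay of the traceless second fundamental form.
-/

set_option autoImplicit false

namespace Helper26.HSF

open Helper35.HSF Helper35.MS Helper35.PI Helper35.PI2 Helper32.CL
open scoped ContDiff Manifold Topology ENNReal BigOperators
open MeasureTheory Set Filter

theorem hTHD (hEPH : StEPH) (hTYI : StTYI) (hMVN : StMVN) (hFBS : StFBS) (hPKN : StPKN)
    (hHTR : StHTR) (hMUJ : StMUJ) (hV5 : StV5) (hSMF : StSMF) : StTHD := by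
  intro n hn M _ _ _ _ _ _ T F ν ts ε hD
  letI : MeasurableSpace M := borel M
  haveI : BorelSpace M := ⟨rfl⟩
  haveI : SecondCountableTopology M := ChartedSpace.secondCountable_of_sigmaCompact (EE n) M
  have hn1 : 1 ≤ n := by omega
  obtain ⟨c, χ, hpu⟩ := hV5 n M
  obtain ⟨p, hnp, hp3, hI⟩ := hEPH n hn M T F ν ts ε c χ hpu hD
  obtain ⟨C₀, hC₀, hTY⟩ := hTYI n hn1 M T F ν ts ε hD
  obtain ⟨Cn, hCn, hMVC⟩ := hMVN n hn1
  have hfl := hD.fl
  have him : IsImmJ (n := n) (Ioo 0 T) F := hfl.mcf.toIsImmJ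
  have hts0 : 0 < ts := hD.ts0.1
  have htsT : ts < T := hD.ts0.2
  obtain ⟨-, -, -, -, hSth, -, -, hSe⟩ := hSMF n (n + 2) M (Ioo 0 T) F him
  have hSeN := (hSe hfl.r0).1
  set tp : ℝ := (ts + T) / 2 with htp
  have htp1 : ts < tp := by rw [htp]; linarith
  have htp2 : tp < T := by rw [htp]; linarith
  obtain ⟨C₁, hC₁⟩ := hI tp ⟨htp1, htp2⟩
  set s₀ : ℝ := (T - tp) / 2 with hs₀
  have hs₀p : 0 < s₀ := by rw [hs₀]; linarith
  have hp0 : 0 < p := by omega
  have hpR : (0 : ℝ) < p := by exact_mod_cast hp0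
  have hnR : (0 : ℝ) < n := by exact_mod_cast (show 0 < n by omega)
  have hnpR : (n : ℝ) < p := by exact_mod_cast hnp
  have hC₀p : 0 < C₀ := by linarith
  -- pointwise facts
  have hth0 : ∀ t ∈ Ico ts T, ∀ q, 0 ≤ thN n F q t := fun t ht q =>
    (hFBS n hn1 M T F ν ts ε hD t ht q q).2.2.2.2.2.1
  have hth1 : ∀ t ∈ Ico ts T, ∀ q, thN n F q t ≤ h2N n F q t := fun t ht q =>
    (hFBS n hn1 M T F ν ts ε hD t ht q q).2.2.2.2.2.2.1
  have hh2 : ∀ t ∈ Ico ts T, ∀ q, h2N n F q t ≤ eN n F q t := fun t ht q =>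
    (hFBS n hn1 M T F ν ts ε hD t ht q q).2.2.2.2.2.2.2.1
  have he0 : ∀ t ∈ Ico ts T, ∀ q, 0 < eN n F q t := by
    intro t ht q
    have h1 := (hTY t ht q).1
    have h2 : 0 < T - t := by linarith [ht.2]
    by_contra hcon
    push Not at hcon
    have h3 : (T - t) * eN n F q t ≤ 0 := mul_nonpos_of_nonneg_of_nonpos h2.le hcon
    have h4 : C₀ * ((T - t) * eN n F q t) ≤ 0 := mul_nonpos_of_nonneg_of_nonpos hC₀p.le h3
    linarith
  have he1 : ∀ t ∈ Ico ts T, ∀ q, eN n F q t ≤ C₀ / (T - t) := by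
    intro t ht q
    have h1 := (hTY t ht q).2
    have h2 : 0 < T - t := by linarith [ht.2]
    rw [le_div_iff₀ h2]
    linarith
  -- the function `u`
  have hψ : ContDiff ℝ ∞ (fun x : ℝ => x ^ p) := contDiff_id.pow p
  obtain ⟨hSu, hu⟩ := (hHTR n (n + 2) M (Ioo 0 T) F him (thN n F) (thN n F) hSth hSth).2.2.1
    (fun x : ℝ => x ^ p) hψ
  have hd1 : deriv (fun x : ℝ => x ^ p) = fun x : ℝ => (p : ℝ) * x ^ (p - 1) := by
    funext x
    simp
  have hd2 : ∀ x : ℝ, deriv (deriv (fun x : ℝ => x ^ p)) x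
      = (p : ℝ) * (((p - 1 : ℕ) : ℝ) * x ^ (p - 1 - 1)) := by
    intro x
    rw [hd1]
    simp
  have hhtu : ∀ t ∈ Ico ts T, ∀ q, htN n F (fun q t => thN n F q t ^ p) q t
      ≤ 2 * p * (C₀ / (T - t)) * thN n F q t ^ p := by
    intro t ht q
    have htJ : t ∈ Ioo 0 T := ⟨by linarith [ht.1], ht.2⟩
    have h1 := (hu q t htJ).2
    have hd1' : deriv (fun x : ℝ => x ^ p) (thN n F q t) = (p : ℝ) * thN n F q t ^ (p - 1) := by
      rw [hd1]
    rw [h1, hd2, hd1']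
    obtain ⟨G, Z, hG, hG1, -⟩ := (hPKN n hn M (Ioo 0 T) F ν hfl).2 q t htJ
    rw [hG1]
    have hth := hth0 t ht q
    set θ := thN n F q t with hθ
    have hnn : 0 ≤ (p : ℝ) * (((p - 1 : ℕ) : ℝ) * θ ^ (p - 1 - 1))
        * ‖gdM n F t (fun q => thN n F q t) q‖ ^ 2 := by positivity
    have hpw : θ ^ (p - 1) * θ = θ ^ p := by
      rw [← pow_succ]
      congr 1
      omega
    have hA : (p : ℝ) * θ ^ (p - 1) * (-2 * G + 2 * h2N n F q t * θ)
        ≤ (p : ℝ) * θ ^ (p - 1) * (2 * (C₀ / (T - t)) * θ) := by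
      apply mul_le_mul_of_nonneg_left _ (by positivity)
      have h5 : h2N n F q t ≤ C₀ / (T - t) := (hh2 t ht q).trans (he1 t ht q)
      have h6 : h2N n F q t * θ ≤ C₀ / (T - t) * θ := mul_le_mul_of_nonneg_right h5 hth
      linarith
    have hB : (p : ℝ) * θ ^ (p - 1) * (2 * (C₀ / (T - t)) * θ)
        = 2 * p * (C₀ / (T - t)) * θ ^ p := by
      rw [← hpw]; ring
    linarith
  -- continuity at fixed times
  have hcon : ∀ (w : M → ℝ → ℝ), SmJ n (Ioo 0 T) w → ∀ t ∈ Ioo 0 T,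
      Continuous (fun q => w q t) := by
    intro w hw t ht
    have h1 : ContinuousOn (fun z : M × ℝ => w z.1 z.2) (univ ×ˢ Ioo 0 T) := hw.continuousOn
    have h2 : Continuous (fun q : M => ((q, t) : M × ℝ)) := by fun_prop
    exact h1.comp_continuous h2 (fun q => ⟨mem_univ _, ht⟩)
  have hsetF : SetupF n (Ioo 0 T) F c χ := ⟨hfl.mcf, hpu⟩
  obtain ⟨sf, -, hmu⟩ := hMUJ n (n + 2) M (Ioo 0 T) F c χ hsetF.toJ
  -- the constant
  set a : ℝ := n / (2 * p) with ha
  have ha0 : 0 < a := by rw [ha]; positivity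
  have ha1 : a < 1 := by
    rw [ha, div_lt_one (by positivity)]
    linarith
  set K : ℝ := Cn * Real.exp (p * C₀) * 2 ^ ((n : ℝ) / 2) * (max C₁ 0 * C₀ ^ ((p : ℝ) - n)) with hK
  have hK0 : 0 ≤ K := by
    rw [hK]
    have : 0 ≤ max C₁ 0 := le_max_right _ _
    positivity
  set Kp : ℝ := K ^ ((1 : ℝ) / p) with hKp
  have hKp0 : 0 ≤ Kp := Real.rpow_nonneg hK0 _
  have hKpp : Kp ^ p = K := by
    rw [hKp, ← Real.rpow_natCast, ← Real.rpow_mul hK0]
    rw [one_div, inv_mul_cancel₀ hpR.ne', Real.rpow_one]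
  have hlate : ∀ t₀ : ℝ, T - s₀ ≤ t₀ → t₀ < T → ∀ q, thN n F q t₀ ≤ Kp * (T - t₀) ^ (a - 1) := by
    intro t₀ h0 h0' q
    set s : ℝ := T - t₀ with hs
    have hsp : 0 < s := by rw [hs]; linarith
    have hss₀ : s ≤ s₀ := by rw [hs]; linarith
    set t₁ : ℝ := t₀ - s / 2 with ht₁
    have ht10 : t₁ < t₀ := by rw [ht₁]; linarith
    have ht1tp : tp ≤ t₁ := by
      rw [ht₁]
      have : tp = T - 2 * s₀ := by rw [hs₀]; ring
      rw [this]
      have : t₀ = T - s := by rw [hs]; ring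
      rw [this]
      linarith
    have hT1 : T - t₁ = 3 * s / 2 := by rw [ht₁, hs]; ring
    have hIcc : Icc t₁ t₀ ⊆ Ioo 0 T := fun t ht =>
      ⟨by linarith [ht.1], by linarith [ht.2]⟩
    have hIco : ∀ t ∈ Icc t₁ t₀, t ∈ Ico ts T := fun t ht =>
      ⟨by linarith [ht.1], by linarith [ht.2]⟩
    have hκ0 : 0 ≤ 2 * p * (C₀ / s) := by positivity
    have hm := hMVC (n + 2) M (Ioo 0 T) F c χ hsetF (fun q t => thN n F q t ^ p)
      (2 * p * (C₀ / s)) t₁ t₀ hSu hκ0 ht10 hIcc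
      (fun q t ht => pow_nonneg (hth0 t (hIco t ht) q) p)
      (fun q t ht => by
        refine (hhtu t (hIco t ht) q).trans ?_
        have h1 : s ≤ T - t := by rw [hs]; linarith [ht.2]
        have h2 : C₀ / (T - t) ≤ C₀ / s := div_le_div_of_nonneg_left hC₀p.le hsp h1
        have h3 : 0 ≤ thN n F q t ^ p := pow_nonneg (hth0 t (hIco t ht) q) p
        have h4 : 2 * (p : ℝ) * (C₀ / (T - t)) ≤ 2 * p * (C₀ / s) := by
          apply mul_le_mul_of_nonneg_left h2 (by positivity)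
        exact mul_le_mul_of_nonneg_right h4 h3) q
    have hdt : t₀ - t₁ = s / 2 := by rw [ht₁]; ring
    have hκt : 2 * p * (C₀ / s) * (t₀ - t₁) = p * C₀ := by
      rw [hdt]
      field_simp
    rw [hκt, hdt] at hm
    have ht1J : t₁ ∈ Ioo 0 T := hIcc ⟨le_refl _, ht10.le⟩
    have ht1I : t₁ ∈ Ico ts T := hIco t₁ ⟨le_refl _, ht10.le⟩
    -- the integral
    have hcth : Continuous (fun q => thN n F q t₁) := hcon _ hSth t₁ ht1J
    have hce : Continuous (fun q => eN n F q t₁) := hcon _ hSeN t₁ ht1J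
    have hcg : Continuous (fun q => thN n F q t₁ ^ p * eN n F q t₁ ^ ((n : ℝ) - p)) := by
      refine (hcth.pow p).mul (hce.rpow_const (fun q => Or.inl (he0 t₁ ht1I q).ne'))
    have hint : ∫ q', thN n F q' t₁ ^ p *
          Real.exp (-(‖F q' t₁ - F q t₀‖ ^ 2 / (8 * (s / 2)))) ∂muM n F c χ t₁
        ≤ max C₁ 0 * (C₀ / s) ^ ((p : ℝ) - n) := by
      have hgi := ((hmu t₁ ht1J).2.2 _ hcg).1
      have hstep : ∫ q', thN n F q' t₁ ^ p *
          Real.exp (-(‖F q' t₁ - F q t₀‖ ^ 2 / (8 * (s / 2)))) ∂muM n F c χ t₁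
          ≤ ∫ q', (thN n F q' t₁ ^ p * eN n F q' t₁ ^ ((n : ℝ) - p))
            * (C₀ / s) ^ ((p : ℝ) - n) ∂muM n F c χ t₁ := by
        apply integral_mono_of_nonneg
        · refine Filter.Eventually.of_forall (fun q' => ?_)
          have := hth0 t₁ ht1I q'
          simp only [Pi.zero_apply]
          positivity
        · exact hgi.mul_const _
        · refine Filter.Eventually.of_forall (fun q' => ?_)
          have h1 := hth0 t₁ ht1I q'
          have h2 := he0 t₁ ht1I q'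
          have h3 := he1 t₁ ht1I q'
          have h4 : eN n F q' t₁ ≤ C₀ / s := by
            refine h3.trans (div_le_div_of_nonneg_left hC₀p.le hsp ?_)
            rw [hT1]; linarith
          have h5 : Real.exp (-(‖F q' t₁ - F q t₀‖ ^ 2 / (8 * (s / 2)))) ≤ 1 := by
            rw [Real.exp_le_one_iff]
            have : 0 ≤ ‖F q' t₁ - F q t₀‖ ^ 2 / (8 * (s / 2)) := by positivity
            linarith
          have h6 : eN n F q' t₁ ^ ((n : ℝ) - p) * eN n F q' t₁ ^ ((p : ℝ) - n) = 1 := by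
            rw [← Real.rpow_add h2]
            simp
          have h7 : eN n F q' t₁ ^ ((p : ℝ) - n) ≤ (C₀ / s) ^ ((p : ℝ) - n) :=
            Real.rpow_le_rpow h2.le h4 (by linarith)
          have h8 : 0 ≤ thN n F q' t₁ ^ p := pow_nonneg h1 p
          have h9 : 0 < eN n F q' t₁ ^ ((n : ℝ) - p) := Real.rpow_pos_of_pos h2 _
          calc thN n F q' t₁ ^ p * Real.exp (-(‖F q' t₁ - F q t₀‖ ^ 2 / (8 * (s / 2))))
              ≤ thN n F q' t₁ ^ p * 1 := mul_le_mul_of_nonneg_left h5 h8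
            _ = (thN n F q' t₁ ^ p * eN n F q' t₁ ^ ((n : ℝ) - p))
                * eN n F q' t₁ ^ ((p : ℝ) - n) := by rw [mul_assoc, h6]
            _ ≤ (thN n F q' t₁ ^ p * eN n F q' t₁ ^ ((n : ℝ) - p))
                * (C₀ / s) ^ ((p : ℝ) - n) :=
              mul_le_mul_of_nonneg_left h7 (mul_nonneg h8 h9.le)
      refine hstep.trans ?_
      rw [integral_mul_const]
      have h1 := hC₁ t₁ ⟨ht1tp, by linarith⟩
      have h2 : 0 ≤ (C₀ / s) ^ ((p : ℝ) - n) := Real.rpow_nonneg (by positivity) _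
      exact mul_le_mul_of_nonneg_right (h1.trans (le_max_left _ _)) h2
    have hbound : thN n F q t₀ ^ p ≤ K * s ^ ((n : ℝ) / 2 - p) := by
      refine hm.trans ?_
      have h1 : 0 ≤ Cn * Real.exp (p * C₀) * (s / 2) ^ (-(n : ℝ) / 2) := by
        have : 0 ≤ (s / 2) ^ (-(n : ℝ) / 2) := Real.rpow_nonneg (by positivity) _
        positivity
      refine (mul_le_mul_of_nonneg_left hint h1).trans (le_of_eq ?_)
      have h2 : (s / 2) ^ (-(n : ℝ) / 2) = s ^ (-(n : ℝ) / 2) * 2 ^ ((n : ℝ) / 2) := by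
        rw [Real.div_rpow hsp.le (by norm_num : (0 : ℝ) ≤ 2), div_eq_mul_inv,
          ← Real.rpow_neg (by norm_num : (0 : ℝ) ≤ 2)]
        congr 2
        ring
      have h3 : (C₀ / s) ^ ((p : ℝ) - n) = C₀ ^ ((p : ℝ) - n) * s ^ ((n : ℝ) - p) := by
        rw [Real.div_rpow hC₀p.le hsp.le, div_eq_mul_inv, ← Real.rpow_neg hsp.le]
        congr 2
        ring
      have h4 : s ^ (-(n : ℝ) / 2) * s ^ ((n : ℝ) - p) = s ^ ((n : ℝ) / 2 - p) := by
        rw [← Real.rpow_add hsp]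
        congr 1
        ring
      rw [h2, h3, hK, ← h4]
      ring
    have hfin : thN n F q t₀ ^ p ≤ (Kp * s ^ (a - 1)) ^ p := by
      refine hbound.trans (le_of_eq ?_)
      rw [mul_pow, hKpp]
      congr 1
      rw [← Real.rpow_natCast, ← Real.rpow_mul hsp.le]
      congr 1
      rw [ha]
      field_simp
    have h1 : 0 ≤ Kp * s ^ (a - 1) := mul_nonneg hKp0 (Real.rpow_nonneg hsp.le _)
    exact le_of_pow_le_pow_left₀ hp0.ne' h1 hfin
  refine ⟨Kp + C₀ * s₀ ^ (-a), a, ?_, ha0, ha1, ?_⟩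
  · have : 0 < s₀ ^ (-a) := Real.rpow_pos_of_pos hs₀p _
    positivity
  intro t ht q
  have hTt : 0 < T - t := by linarith [ht.2]
  have hr0 : 0 ≤ (T - t) ^ (a - 1) := Real.rpow_nonneg hTt.le _
  rcases le_total (T - s₀) t with h | h
  · refine (hlate t h ht.2 q).trans ?_
    apply mul_le_mul_of_nonneg_right _ hr0
    have : 0 ≤ C₀ * s₀ ^ (-a) := mul_nonneg hC₀p.le (Real.rpow_nonneg hs₀p.le _)
    linarith
  · have h1 : thN n F q t ≤ C₀ / (T - t) :=
      ((hth1 t ht q).trans (hh2 t ht q)).trans (he1 t ht q)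
    refine h1.trans ?_
    have h2 : C₀ / (T - t) = C₀ * ((T - t) ^ (-a) * (T - t) ^ (a - 1)) := by
      rw [← Real.rpow_add hTt]
      have : -a + (a - 1) = -1 := by ring
      rw [this, Real.rpow_neg_one]
      rfl
    rw [h2, ← mul_assoc]
    apply mul_le_mul_of_nonneg_right _ hr0
    have h3 : (T - t) ^ (-a) ≤ s₀ ^ (-a) :=
      Real.rpow_le_rpow_of_nonpos hs₀p (by linarith) (by linarith)
    have h4 : C₀ * (T - t) ^ (-a) ≤ C₀ * s₀ ^ (-a) := mul_le_mul_of_nonneg_left h3 hC₀p.le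
    linarith

end Helper26.HSF
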